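import Pool.Agent.MP_6a4325_al.H84.Spec3

/-! Row FINR: finite images over the algebraic closure of a prime field; the standard polynomial
does not vanish on large endomorphism rings. -/

namespace Pool.Agent.MP_6a4325_al.H58

open Pool.Agent.MP_6a4325_al.H62 Pool.Agent.MP_6a4325_al.H84

theorem finR : SFinR := by
  intro p _ G M _ _ _ ρ hG hM
  classical
  obtain ⟨S, hS, hSf⟩ := (Group.fg_iff (G := G)).1 hG
  let b := Module.finBasis (Kp p) M
  let A : G → Matrix (Fin (Module.finrank (Kp p) M)) (Fin (Module.finrank (Kp p) M)) (Kp p) :=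
    fun g => LinearMap.toMatrix b b (ρ g)
  let E : Set (Kp p) := ⋃ g ∈ S, ⋃ i, ⋃ j, {A g i j, A g⁻¹ i j}
  have hE : E.Finite := hSf.biUnion fun g _ => Set.finite_iUnion fun i =>
    Set.finite_iUnion fun j => Set.toFinite _
  let R := Algebra.adjoin (ZMod p) E
  haveI : Module.Finite (ZMod p) R := Algebra.finite_adjoin_of_finite_of_isIntegral hE
    fun x _ => Algebra.IsIntegral.isIntegral x
  haveI : Finite R := Module.finite_of_finite (ZMod p)
  have hR : (R : Set (Kp p)).Finite := Set.toFinite _
  have hmul : ∀ g h, (∀ i j, A g i j ∈ R) → (∀ i j, A h i j ∈ R) → ∀ i j, A (g * h) i j ∈ R := by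
    intro g h hg hh i j
    have : A (g * h) = A g * A h := by
      simp only [A, map_mul]
      exact LinearMap.toMatrix_mul b _ _
    rw [this, Matrix.mul_apply]
    exact R.sum_mem fun l _ => R.mul_mem (hg i l) (hh l j)
  have hone : ∀ i j, A 1 i j ∈ R := by
    intro i j
    have : A 1 = 1 := by
      simp only [A, map_one]
      exact LinearMap.toMatrix_one b
    rw [this, Matrix.one_apply]
    split_ifs
    · exact R.one_mem
    · exact R.zero_mem
  have hall : ∀ g, (∀ i j, A g i j ∈ R) ∧ ∀ i j, A g⁻¹ i j ∈ R := by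
    intro g
    have hg : g ∈ Subgroup.closure S := hS ▸ Subgroup.mem_top g
    induction hg using Subgroup.closure_induction with
    | mem x hx =>
      constructor <;> intro i j <;> refine Algebra.subset_adjoin ?_ <;>
        simp only [E, Set.mem_iUnion] <;> exact ⟨x, hx, i, j, by simp⟩
    | one => exact ⟨hone, by rw [inv_one]; exact hone⟩
    | mul x y _ _ hx hy => exact ⟨hmul x y hx.1 hy.1, by rw [mul_inv_rev]; exact hmul _ _ hy.2 hx.2⟩
    | inv x _ hx => exact ⟨hx.2, by rw [inv_inv]; exact hx.1⟩
  have hfin : {X : Matrix (Fin (Module.finrank (Kp p) M)) (Fin (Module.finrank (Kp p) M)) (Kp p) |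
      ∀ i, X i ∈ {y : Fin (Module.finrank (Kp p) M) → Kp p | ∀ j, y j ∈ (R : Set (Kp p))}}.Finite :=
    Set.Finite.pi' fun _ => Set.Finite.pi' fun _ => hR
  refine (hfin.preimage (LinearMap.toMatrix b b).injective.injOn).subset ?_
  rintro _ ⟨g, rfl⟩ i j
  exact (hall g).1 i j

section Std

variable {K M : Type} [Field K] [AddCommGroup M] [Module K M] {n : ℕ} {e : ℕ → M}
  {x : ℕ → Module.End K M}

theorem prod_range (h : ∀ i j, j < n → x i (e j) = if j = i + 1 then e i else 0) :
    ∀ (l a : ℕ), a + l < n → ((List.range' a l).map x).prod (e (a + l)) = e a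
  | 0, a, _ => by simp
  | l + 1, a, hl => by
    have h1 := prod_range h l (a + 1) (by omega)
    have h2 : a + (l + 1) = a + 1 + l := by omega
    rw [List.range'_succ, List.map_cons, List.prod_cons, Module.End.mul_apply, h2, h1,
      h a (a + 1) (by omega), if_pos rfl]

theorem prod_other (h : ∀ i j, j < n → x i (e j) = if j = i + 1 then e i else 0) (j : ℕ)
    (hj : j < n) : ∀ l : List ℕ, (l.map x).prod (e j) = 0 ∨
      ∃ a, a + l.length = j ∧ l = List.range' a l.length
  | [] => Or.inr ⟨j, rfl, rfl⟩
  | c :: l => by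
    rw [List.map_cons, List.prod_cons, Module.End.mul_apply]
    rcases prod_other h j hj l with h1 | ⟨a, h1, h2⟩
    · left
      rw [h1, map_zero]
    · have h3 := prod_range h l.length a (by omega)
      rw [← h2, h1] at h3
      rw [h3, h c a (by omega)]
      by_cases h4 : a = c + 1
      · right
        refine ⟨c, by rw [List.length_cons]; omega, ?_⟩
        rw [List.length_cons, List.range'_succ, ← h4, ← h2]
      · left
        rw [if_neg h4]

end Std

theorem std : SStd := by
  intro K M _ _ _ r hr
  classical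
  haveI : Module.Finite K M := Module.finite_of_finrank_pos (by omega)
  let b := Module.finBasis K M
  let e : ℕ → M := fun j => if h : j < Module.finrank K M then b ⟨j, h⟩ else 0
  let x : ℕ → Module.End K M := fun i => b.constr K fun j => if j.val = i + 1 then e i else 0
  have h : ∀ i j, j < Module.finrank K M → x i (e j) = if j = i + 1 then e i else 0 := by
    intro i j hj
    have : e j = b ⟨j, hj⟩ := dif_pos hj
    rw [this]
    exact b.constr_basis K _ _
  refine ⟨fun i => x i, fun h0 => ?_⟩
  have h1 := LinearMap.congr_fun h0 (e r)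
  have hl : ∀ σ : Equiv.Perm (Fin r), (List.ofFn fun i => x (σ i)) =
      (List.ofFn fun i => (σ i).val).map x := fun σ => by rw [List.map_ofFn]; rfl
  have hid : (List.ofFn fun i : Fin r => i.val) = List.range' 0 r := by
    apply List.ext_getElem <;> simp
  rw [LinearMap.sum_apply, Finset.sum_eq_single 1] at h1
  · have h2 := prod_range h r 0 (by omega)
    rw [zero_add] at h2
    rw [hl, Equiv.Perm.sign_one, one_smul] at h1
    have h3 : (List.ofFn fun i => ((1 : Equiv.Perm (Fin r)) i).val) = List.range' 0 r := hid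
    rw [h3, h2] at h1
    have h4 : e 0 = b ⟨0, by omega⟩ := dif_pos _
    rw [h4] at h1
    exact b.ne_zero _ h1
  · intro σ _ hσ
    rcases prod_other h r hr (List.ofFn fun i => (σ i).val) with h2 | ⟨a, h2, h3⟩
    · rw [hl, Units.smul_def, LinearMap.smul_apply, h2, smul_zero]
    · exfalso
      rw [List.length_ofFn] at h2 h3
      have h4 : a = 0 := by omega
      rw [h4, ← hid, List.ofFn_inj] at h3
      exact hσ (Equiv.ext fun i => Fin.ext (congrFun h3 i))
  · intro h2
    exact absurd (Finset.mem_univ _) h2

end Pool.Agent.MP_6a4325_al.H58
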